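import Mathlib

/-!
# Decompositions of numerical semigroups into irreducible ones have unbounded length

For every `N` the numerical semigroup `{0} ∪ [m, ∞)`, `m` large, is not an intersection of `N` or
fewer irreducible numerical semigroups.

Idea. If `T` is irreducible with Frobenius number `f ≤ m - 1` and misses `h = m - 1 - u` with a small
`u`, then `f - h = u - (m - 1 - f)` lies in `T`. So the small numbers `u` are covered by the classes
`m - 1 - f` modulo the gcd `d` of the small elements of `T`, and `d` does not divide `f`, that is,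
`m - 1` is in none of these classes. By the theorem of Crittenden and Vanden Eynden, `N` residue
classes which cover `2 ^ N` consecutive integers cover all integers.
-/

set_option autoImplicit false

open Finset

namespace Pool.Agent.Results.MP_b58a5b_nt.UnboundedDecompositions

/-- A numerical semigroup: a submonoid of `(ℕ, +)` with finite complement. -/
def IsNumericalSemigroup (S : AddSubmonoid ℕ) : Prop := ((S : Set ℕ)ᶜ).Finite

/-- An irreducible numerical semigroup: it is not the intersection of two numerical semigroups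
that contain it properly. -/
def IsIrreducible (S : AddSubmonoid ℕ) : Prop :=
  IsNumericalSemigroup S ∧ ¬ ∃ S₁ S₂ : AddSubmonoid ℕ,
    IsNumericalSemigroup S₁ ∧ IsNumericalSemigroup S₂ ∧ S < S₁ ∧ S < S₂ ∧ S = S₁ ⊓ S₂

/-! ### The covering theorem -/

/-- A sum of exponentials that vanishes at sufficiently many consecutive integers vanishes at
all larger ones. -/
theorem expsum {κ : Type*} [DecidableEq κ] (P : Finset κ) : ∀ (c l : κ → ℂ) (a : ℕ),
    (∀ x, a ≤ x → x < a + P.card → ∑ t ∈ P, c t * l t ^ x = 0) →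
    ∀ x, a ≤ x → ∑ t ∈ P, c t * l t ^ x = 0 := by
  induction P using Finset.induction_on with
  | empty => intro c l a _ x _; simp
  | insert t P ht ih =>
    intro c l a h
    rw [card_insert_of_notMem ht] at h
    have key : ∀ x, ∑ s ∈ P, (c s * (l s - l t)) * l s ^ x =
        ∑ s ∈ insert t P, c s * l s ^ (x + 1) - l t * ∑ s ∈ insert t P, c s * l s ^ x := by
      intro x
      rw [sum_insert ht, sum_insert ht, mul_add, mul_sum]
      have : c t * l t ^ (x + 1) + ∑ s ∈ P, c s * l s ^ (x + 1) -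
          (l t * (c t * l t ^ x) + ∑ s ∈ P, l t * (c s * l s ^ x)) =
          ∑ s ∈ P, c s * l s ^ (x + 1) - ∑ s ∈ P, l t * (c s * l s ^ x) := by ring
      rw [this, ← sum_sub_distrib]
      exact sum_congr rfl fun s _ => by ring
    have h1 : ∀ x, a ≤ x → ∑ s ∈ P, (c s * (l s - l t)) * l s ^ x = 0 := by
      refine ih (fun s => c s * (l s - l t)) l a ?_
      intro x hx1 hx2
      show ∑ s ∈ P, (c s * (l s - l t)) * l s ^ x = 0
      rw [key, h x hx1 (by omega), h (x + 1) (by omega) (by omega)]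
      simp
    intro x hx
    induction x, hx using Nat.le_induction with
    | base => exact h a le_rfl (by omega)
    | succ x hx ih2 =>
      have := key x
      rw [h1 x hx, ih2] at this
      simpa using this.symm

/-- The theorem of Crittenden and Vanden Eynden: residue classes, `n` in number, that cover
`0, 1, …, 2 ^ n - 1` cover all natural numbers. -/
theorem cover {ι : Type*} [DecidableEq ι] (s : Finset ι) (g d : ι → ℕ) (hd : ∀ i ∈ s, 0 < d i)
    (h : ∀ u < 2 ^ s.card, ∃ i ∈ s, d i ∣ u + (d i - 1) * g i) (x : ℕ) :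
    ∃ i ∈ s, d i ∣ x + (d i - 1) * g i := by
  classical
  let z : ι → ℂ := fun i => Complex.exp (2 * Real.pi * Complex.I / d i)
  have hz : ∀ i ∈ s, IsPrimitiveRoot (z i) (d i) := fun i hi =>
    Complex.isPrimitiveRoot_exp (d i) (hd i hi).ne'
  let w : ι → ℂ := fun i => -(z i ^ ((d i - 1) * g i))
  have hw : ∀ i ∈ s, ∀ y : ℕ, (1 + w i * z i ^ y = 0 ↔ d i ∣ y + (d i - 1) * g i) := by
    intro i hi y
    have e : 1 + w i * z i ^ y = 1 - z i ^ (y + (d i - 1) * g i) := by
      simp only [w]; rw [pow_add]; ring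
    rw [e, sub_eq_zero, eq_comm]
    exact (hz i hi).pow_eq_one_iff_dvd _
  have hprod : ∀ y : ℕ, ∏ i ∈ s, (1 + w i * z i ^ y) =
      ∑ t ∈ s.powerset, (∏ i ∈ t, w i) * (∏ i ∈ t, z i) ^ y := by
    intro y
    rw [prod_one_add]
    refine sum_congr rfl fun t _ => ?_
    rw [prod_mul_distrib, prod_pow]
  have hzero : ∀ y : ℕ, (∏ i ∈ s, (1 + w i * z i ^ y) = 0 ↔ ∃ i ∈ s, d i ∣ y + (d i - 1) * g i) := by
    intro y
    rw [prod_eq_zero_iff]
    constructor
    · rintro ⟨i, hi, h1⟩
      exact ⟨i, hi, (hw i hi y).mp h1⟩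
    · rintro ⟨i, hi, h1⟩
      exact ⟨i, hi, (hw i hi y).mpr h1⟩
  rw [← hzero, hprod]
  refine expsum s.powerset _ _ 0 ?_ x (Nat.zero_le x)
  intro y _ hy
  rw [card_powerset, zero_add] at hy
  rw [← hprod, hzero]
  exact h y hy

/-! ### Irreducible numerical semigroups -/

/-- Adding an element to a submonoid. -/
def adjoin (T : AddSubmonoid ℕ) (x : ℕ) (h2 : x + x ∈ T) (h : ∀ t ∈ T, t ≠ 0 → x + t ∈ T) :
    AddSubmonoid ℕ where
  carrier := {y | y ∈ T ∨ y = x}
  zero_mem' := Or.inl T.zero_mem
  add_mem' := by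
    rintro a b (ha | rfl) (hb | rfl)
    · exact Or.inl (T.add_mem ha hb)
    · by_cases ha0 : a = 0
      · right; simp [ha0]
      · left; rw [add_comm]; exact h a ha ha0
    · by_cases hb0 : b = 0
      · right; simp [hb0]
      · left; exact h b hb hb0
    · exact Or.inl h2

theorem mem_adjoin {T : AddSubmonoid ℕ} {x : ℕ} {h2 : x + x ∈ T}
    {h : ∀ t ∈ T, t ≠ 0 → x + t ∈ T} {y : ℕ} : y ∈ adjoin T x h2 h ↔ y ∈ T ∨ y = x := Iff.rfl

theorem num_of_le {S T : AddSubmonoid ℕ} (hS : IsNumericalSemigroup S) (h : S ≤ T) :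
    IsNumericalSemigroup T :=
  hS.subset (Set.compl_subset_compl.mpr h)

/-- An irreducible numerical semigroup is symmetric or pseudo-symmetric. -/
theorem symm {T : AddSubmonoid ℕ} (hT : IsIrreducible T) {f : ℕ} (hf : f ∉ T)
    (hfm : ∀ x, f < x → x ∈ T) : ∀ n x : ℕ, f - x = n → x ∉ T → 2 * x ≠ f → f - x ∈ T := by
  intro n
  induction n using Nat.strong_induction_on with
  | _ n ih =>
    intro x hn hx h2
    have hxf : x ≤ f := by
      by_contra hc
      exact hx (hfm x (by omega))
    by_contra hbad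
    rcases lt_or_gt_of_ne h2 with h3 | h3
    · -- `2 x < f`
      have hx0 : x ≠ 0 := fun h0 => hx (h0 ▸ T.zero_mem)
      have := ih (f - (f - x)) (by omega) (f - x) rfl hbad (by omega)
      rw [show f - (f - x) = x by omega] at this
      exact hx this
    · have hxx : x + x ∈ T := hfm _ (by omega)
      have hadd : ∀ t ∈ T, t ≠ 0 → x + t ∈ T := by
        intro t ht ht0
        by_contra hc
        have hle : x + t ≤ f := by
          by_contra hc2
          exact hc (hfm _ (by omega))
        have h4 := ih (f - (x + t)) (by omega) (x + t) rfl hc (by omega)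
        apply hbad
        have h5 := T.add_mem h4 ht
        rwa [show f - (x + t) + t = f - x by omega] at h5
      have hff : f + f ∈ T := by
        by_cases h0 : f = 0
        · exact absurd (h0 ▸ T.zero_mem) hf
        · exact hfm _ (by omega)
      have hfadd : ∀ t ∈ T, t ≠ 0 → f + t ∈ T := fun t _ ht0 => hfm _ (by omega)
      have hxf' : x ≠ f := by
        intro he
        apply hbad
        rw [he, Nat.sub_self]
        exact T.zero_mem
      refine hT.2 ⟨adjoin T x hxx hadd, adjoin T f hff hfadd, num_of_le hT.1 fun y hy => Or.inl hy,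
        num_of_le hT.1 fun y hy => Or.inl hy, ?_, ?_, ?_⟩
      · refine lt_of_le_of_ne (fun y hy => Or.inl hy) fun he => hx ?_
        rw [he]; exact Or.inr rfl
      · refine lt_of_le_of_ne (fun y hy => Or.inl hy) fun he => hf ?_
        rw [he]; exact Or.inr rfl
      · ext y
        rw [AddSubmonoid.mem_inf, mem_adjoin, mem_adjoin]
        constructor
        · intro hy; exact ⟨Or.inl hy, Or.inl hy⟩
        · rintro ⟨h5 | h5, h6 | h6⟩
          · exact h5
          · exact h5
          · exact h6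
          · exact absurd (h5.symm.trans h6) hxf'

/-! ### The ordinary semigroups -/

/-- The numerical semigroup `{0} ∪ [m, ∞)`. -/
def ordinary (m : ℕ) : AddSubmonoid ℕ where
  carrier := {x | x = 0 ∨ m ≤ x}
  zero_mem' := Or.inl rfl
  add_mem' := by
    rintro a b (rfl | ha) (rfl | hb)
    · left; rfl
    · right; simpa using hb
    · right; simpa using ha
    · right; omega

theorem mem_ordinary {m x : ℕ} : x ∈ ordinary m ↔ x = 0 ∨ m ≤ x := Iff.rfl

theorem num_ordinary (m : ℕ) : IsNumericalSemigroup (ordinary m) := by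
  refine (Set.finite_lt_nat m).subset ?_
  intro x hx
  by_contra hc
  exact hx (Or.inr (not_lt.mp hc))

/-- The Frobenius number. -/
noncomputable def frob (T : AddSubmonoid ℕ) : ℕ := sSup ((T : Set ℕ)ᶜ)

theorem frob_notMem {T : AddSubmonoid ℕ} (hT : IsNumericalSemigroup T) {x : ℕ} (hx : x ∉ T) :
    frob T ∉ T :=
  Nat.sSup_mem ⟨x, hx⟩ hT.bddAbove

theorem mem_of_frob_lt {T : AddSubmonoid ℕ} (hT : IsNumericalSemigroup T) {x : ℕ}
    (hx : frob T < x) : x ∈ T := by
  by_contra hc
  exact absurd (le_csSup hT.bddAbove hc) (not_le.mpr hx)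

open Classical in
/-- The elements of `T` between `1` and `K`. -/
noncomputable def small (K : ℕ) (T : AddSubmonoid ℕ) : Finset ℕ := (Finset.Icc 1 K).filter (· ∈ T)

/-- A uniform bound after which all multiples of the gcd are in the closure. -/
theorem bound (K : ℕ) : ∃ B : ℕ, ∀ D ⊆ Finset.Icc 1 K, ∀ y ≥ B,
    Nat.setGcd (D : Set ℕ) ∣ y → y ∈ AddSubmonoid.closure (D : Set ℕ) := by
  choose n hn using fun D : Finset ℕ => Nat.exists_mem_closure_of_ge (D : Set ℕ)
  refine ⟨(Finset.Icc 1 K).powerset.sup n, fun D hD y hy h => hn D y ?_ h⟩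
  exact le_trans (Finset.le_sup (f := n) (Finset.mem_powerset.mpr hD)) hy

theorem main (N : ℕ) : ∃ m₀ : ℕ, ∀ m ≥ m₀, ∀ 𝓣 : Finset (AddSubmonoid ℕ),
    (∀ T ∈ 𝓣, IsIrreducible T) → (∀ x, x ∈ ordinary m ↔ ∀ T ∈ 𝓣, x ∈ T) → N < 𝓣.card := by
  classical
  obtain ⟨B, hB⟩ := bound (2 ^ N)
  refine ⟨B + 2 * 2 ^ N + 3, fun m hm 𝓣 hirr hS => ?_⟩
  by_contra hcard
  have hcard : 𝓣.card ≤ N := not_lt.mp hcard
  set K := 2 ^ N with hK
  let g : AddSubmonoid ℕ → ℕ := fun T => m - 1 - frob T
  let D : AddSubmonoid ℕ → Finset ℕ := small K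
  let d : AddSubmonoid ℕ → ℕ := fun T =>
    if Nat.setGcd (D T : Set ℕ) = 0 then frob T + 1 else Nat.setGcd (D T : Set ℕ)
  let 𝓤 := 𝓣.filter fun T => g T < K ∧ frob T ∉ T
  have hdpos : ∀ T, 0 < d T := by
    intro T
    simp only [d]
    split_ifs with h
    · omega
    · exact Nat.pos_of_ne_zero h
  have hU : 𝓤.card ≤ N := le_trans (card_filter_le _ _) hcard
  have hle : ∀ T ∈ 𝓣, ordinary m ≤ T := fun T hT x hx => (hS x).mp hx T hT
  have hfrob : ∀ T ∈ 𝓣, frob T ∉ T → frob T ≤ m - 1 := by
    intro T hT hf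
    by_contra hc
    exact hf (hle T hT (Or.inr (by omega)))
  -- every small number is covered
  have hcov : ∀ u < 2 ^ 𝓤.card, ∃ T ∈ 𝓤, d T ∣ u + (d T - 1) * g T := by
    intro u hu
    have huK : u < K := lt_of_lt_of_le hu (Nat.pow_le_pow_right (by norm_num) hU)
    have hnot : m - 1 - u ∉ ordinary m := by
      rw [mem_ordinary]
      omega
    rw [hS] at hnot
    push Not at hnot
    obtain ⟨T, hT, hTu⟩ := hnot
    have hnum := (hirr T hT).1
    have hf : frob T ∉ T := frob_notMem hnum hTu
    have hf1 : frob T ≤ m - 1 := hfrob T hT hf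
    have hf2 : m - 1 - u ≤ frob T := by
      by_contra hc
      exact hTu (mem_of_frob_lt hnum (not_le.mp hc))
    have h1 := symm (hirr T hT) hf (fun x hx => mem_of_frob_lt hnum hx) _ (m - 1 - u) rfl hTu
      (by omega)
    have h2 : frob T - (m - 1 - u) = u - g T := by
      simp only [g]; omega
    rw [h2] at h1
    have hgu : g T ≤ u := by simp only [g]; omega
    refine ⟨T, mem_filter.mpr ⟨hT, lt_of_le_of_lt hgu huK, hf⟩, ?_⟩
    -- `d T` divides `u - g T`
    have hdvd : d T ∣ u - g T := by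
      rcases Nat.eq_zero_or_pos (u - g T) with h0 | h0
      · rw [h0]; exact dvd_zero _
      · have hmem : u - g T ∈ (D T : Set ℕ) := by
          simp only [D, small, Finset.mem_coe, Finset.mem_filter, Finset.mem_Icc]
          exact ⟨⟨h0, by omega⟩, h1⟩
        have hg := Nat.setGcd_dvd_of_mem hmem
        simp only [d]
        split_ifs with hz
        · rw [hz, zero_dvd_iff] at hg
          omega
        · exact hg
    have e : u + (d T - 1) * g T = (u - g T) + d T * g T := by
      have := hdpos T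
      obtain ⟨k, hk⟩ : ∃ k, d T = k + 1 := ⟨d T - 1, by omega⟩
      rw [hk, Nat.add_sub_cancel]
      have : u = (u - g T) + g T := by omega
      nlinarith
    rw [e]
    exact dvd_add hdvd (dvd_mul_right _ _)
  obtain ⟨T, hT, hdiv⟩ := cover 𝓤 g d (fun T _ => hdpos T) hcov (m - 1)
  obtain ⟨hT1, hT2, hT3⟩ := mem_filter.mp hT
  have hf1 := hfrob T hT1 hT3
  have hf0 : frob T ≠ 0 := fun h0 => hT3 (h0 ▸ T.zero_mem)
  have hdf : d T ∣ frob T := by
    have e : m - 1 + (d T - 1) * g T = frob T + d T * g T := by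
      have := hdpos T
      obtain ⟨k, hk⟩ : ∃ k, d T = k + 1 := ⟨d T - 1, by omega⟩
      rw [hk, Nat.add_sub_cancel]
      have : m - 1 = frob T + g T := by simp only [g]; omega
      rw [this]
      ring
    rw [e] at hdiv
    exact (Nat.dvd_add_left (dvd_mul_right _ _)).mp hdiv
  simp only [d] at hdf
  split_ifs at hdf with hz
  · have := Nat.le_of_dvd (by omega) hdf
    omega
  · have hcl := hB (D T) (filter_subset _ _) (frob T) (by simp only [g] at hT2; omega) hdf
    refine hT3 ((AddSubmonoid.closure_le (S := T)).mpr ?_ hcl)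
    intro y hy
    simp only [D, small, Finset.mem_coe, Finset.mem_filter] at hy
    exact hy.2

/-- There is no `N` such that every numerical semigroup is the intersection of at most `N`
irreducible numerical semigroups. -/
theorem result : ¬ ∃ N : ℕ, ∀ S : AddSubmonoid ℕ, IsNumericalSemigroup S →
    ∃ 𝓣 : Finset (AddSubmonoid ℕ), 𝓣.card ≤ N ∧ (∀ T ∈ 𝓣, IsIrreducible T) ∧
      ∀ x : ℕ, x ∈ S ↔ ∀ T ∈ 𝓣, x ∈ T := by
  rintro ⟨N, h⟩
  obtain ⟨m₀, hm⟩ := main N
  obtain ⟨𝓣, h1, h2, h3⟩ := h (ordinary m₀) (num_ordinary m₀)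
  exact absurd (hm m₀ le_rfl 𝓣 h2 h3) (not_lt.mpr h1)

end Pool.Agent.Results.MP_b58a5b_nt.UnboundedDecompositions
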